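import Mathlib

set_option autoImplicit false
set_option maxRecDepth 100000

namespace Pool.Agent.Results.MP_e1d516_co.Counter

/-- the fixed-point-free involution (0 1)(2 3)...(2m-2 2m-1) on `Fin (2m)` as a map -/
def swapFun (m : ℕ) (i : Fin (2 * m)) : Fin (2 * m) :=
  if h : i.val % 2 = 0 then ⟨i.val + 1, by have := i.2; omega⟩ else ⟨i.val - 1, by have := i.2; omega⟩

def cwL : List ℕ := [0, 1569, 2322, 3891, 1223, 742, 3541, 3060, 2251, 3818, 473, 2040, 3084, 2605, 1310, 831, 88, 1657, 2378, 3947, 1183, 702, 3469, 2988, 2195, 3762, 385, 1952, 3156, 2677, 1350, 871, 164, 1669, 2486, 3991, 1123, 578, 3441, 2896, 2159, 3662, 381, 1884, 3240, 2697, 1466, 923, 252, 1757, 2542, 4047, 1083, 538, 3369, 2824, 2103, 3606, 293, 1796, 3312, 2769, 1506, 963]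

def bit (c : ℕ) (i : Fin (2 * 6)) : ZMod 2 := if c / 2 ^ i.val % 2 = 1 then 1 else 0

def enc (a : Fin 64) : Fin (2 * 6) → ZMod 2 := bit (cwL.getD a.val 0)

def xr (a b : Fin 64) : Fin 64 := ⟨(a.val ^^^ b.val) % 64, Nat.mod_lt _ (by norm_num)⟩

def sw (a : Fin 64) : Fin 64 :=
  ⟨(a.val / 2 % 2 + a.val % 2 * 2 + a.val / 8 % 2 * 4 + a.val / 4 % 2 * 8 + a.val / 32 % 2 * 16 +
    a.val / 16 % 2 * 32) % 64, Nat.mod_lt _ (by norm_num)⟩

lemma enc_add : ∀ a b : Fin 64, ∀ i, enc a i + enc b i = enc (xr a b) i := by decide +kernel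

lemma enc_sw : ∀ a : Fin 64, ∀ i, enc a (swapFun 6 i) = enc (sw a) i := by decide +kernel

lemma enc_zero : ∀ i, enc 0 i = 0 := by decide +kernel

lemma enc_inj' : ∀ a b : Fin 64, (∀ i, enc a i = enc b i) → a = b := by decide +kernel

lemma enc_inj : Function.Injective enc := fun a b h => enc_inj' a b (fun i => congrFun h i)

lemma sw_sw : ∀ i : Fin (2 * 6), swapFun 6 (swapFun 6 i) = i := by decide

def code : Submodule (ZMod 2) (Fin (2 * 6) → ZMod 2) where
  carrier := Set.range enc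
  add_mem' := by
    rintro _ _ ⟨a, rfl⟩ ⟨b, rfl⟩
    exact ⟨xr a b, funext fun i => (enc_add a b i).symm⟩
  zero_mem' := ⟨0, funext enc_zero⟩
  smul_mem' := by
    rintro r _ ⟨a, rfl⟩
    have hr : ∀ r : ZMod 2, r = 0 ∨ r = 1 := by decide
    rcases hr r with rfl | rfl
    · exact ⟨0, by rw [zero_smul]; exact funext enc_zero⟩
    · exact ⟨a, by rw [one_smul]⟩

def wt (c : Fin (2 * 6) → ZMod 2) : ℕ := ∑ i, if c i = 1 then 1 else 0

def tm (c : Fin (2 * 6) → ZMod 2) (i j : Fin (2 * 6)) : ℕ :=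
  if c i = 1 ∧ c j = 1 then 65 ^ wt c else 0

def inv (i j : Fin (2 * 6)) : ℕ := ∑ a : Fin 64, tm (enc a) i j

def wtT (a : Fin 64) : ℕ := [0, 4, 4, 8, 6, 6, 8, 8, 6, 8, 6, 8, 4, 6, 6, 8, 3, 7, 5, 9, 7, 7, 7, 7, 5, 7, 3, 5, 5, 7, 5, 7, 3, 5, 7, 9, 5, 3, 7, 5, 7, 7, 7, 7, 5, 5, 7, 7, 6, 8, 8, 10, 6, 4, 6, 4, 6, 6, 4, 4, 6, 6, 6, 6].getD a.val 0

lemma wt_eq : ∀ a : Fin 64, wt (enc a) = wtT a := by decide +kernel

def inv' (i j : Fin (2 * 6)) : ℕ := ∑ a : Fin 64, if enc a i = 1 ∧ enc a j = 1 then 65 ^ wtT a else 0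

lemma inv_eq (i j : Fin (2 * 6)) : inv i j = inv' i j := by
  simp only [inv, inv', tm, wt_eq]

lemma diag : ∀ i j : Fin (2 * 6), inv' i i = inv' j j → i = j ∨ i = swapFun 6 j := by
  decide +kernel

lemma off0 : ∀ j : Fin (2 * 6), inv' 0 (swapFun 6 j) = inv' 0 j → j = 0 ∨ j = 1 := by
  decide +kernel

lemma off1 : ∀ j : Fin (2 * 6), inv' 1 j = inv' 0 j → j = 0 ∨ j = 1 := by
  decide +kernel

lemma inv_perm (β : Equiv.Perm (Fin (2 * 6)))
    (h : ∀ c, c ∈ code ↔ (fun i => c (β i)) ∈ code) (i j : Fin (2 * 6)) :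
    inv (β i) (β j) = inv i j := by
  have h1 : ∀ a : Fin 64, ∃ b : Fin 64, enc b = fun i => enc a (β i) :=
    fun a => (h (enc a)).1 ⟨a, rfl⟩
  choose φ hφ using h1
  have hinj : Function.Injective φ := by
    intro a b hab
    apply enc_inj
    funext i
    have := congrFun ((hφ a).symm.trans (hab ▸ hφ b)) (β.symm i)
    simpa using this
  have hbij : Function.Bijective φ := Finite.injective_iff_bijective.1 hinj
  unfold inv
  rw [← Function.Bijective.sum_comp hbij (fun a => tm (enc a) i j)]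
  refine Finset.sum_congr rfl (fun a _ => ?_)
  rw [hφ a]
  unfold tm wt
  rw [Equiv.sum_comp β (fun i => if enc a i = 1 then 1 else 0)]

theorem result :
    ∃ m : ℕ, 2 ≤ m ∧ ∃ C : Submodule (ZMod 2) (Fin (2 * m) → ZMod 2),
      ∀ β : Equiv.Perm (Fin (2 * m)),
        ((fun c : Fin (2 * m) → ZMod 2 => fun i => c (β.symm i)) '' (C : Set _) = C) ↔
          ((∀ i, β i = i) ∨ (∀ i, β i = swapFun m i)) := by
  refine ⟨6, by norm_num, code, fun β => ⟨fun h => ?_, ?_⟩⟩
  · have h' : ∀ c, c ∈ code ↔ (fun i => c (β i)) ∈ code := by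
      intro c
      constructor
      · intro hc
        have : c ∈ (fun c : Fin (2 * 6) → ZMod 2 => fun i => c (β.symm i)) '' (code : Set _) := by
          rw [h]; exact hc
        obtain ⟨d, hd, rfl⟩ := this
        simpa using hd
      · intro hc
        have : c ∈ (fun c : Fin (2 * 6) → ZMod 2 => fun i => c (β.symm i)) '' (code : Set _) :=
          ⟨_, hc, by simp⟩
        rw [h] at this
        exact this
    have hp : ∀ i j, inv' (β i) (β j) = inv' i j := fun i j => by
      rw [← inv_eq, ← inv_eq]; exact inv_perm β h' i j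
    have hd : ∀ j, β j = j ∨ β j = swapFun 6 j := fun j => diag _ _ (hp j j)
    have s0 : swapFun 6 0 = 1 := by decide
    have s1 : swapFun 6 1 = 0 := by decide
    rcases hd 0 with h0 | h0
    · left
      intro j
      rcases hd j with hj | hj
      · exact hj
      · have := hp 0 j
        rw [h0, hj] at this
        rcases off0 j this with rfl | rfl
        · exact h0
        · rw [s1] at hj
          exact absurd (β.injective (hj.trans h0.symm)) (by decide)
    · right
      rw [s0] at h0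
      intro j
      rcases hd j with hj | hj
      · have := hp 0 j
        rw [h0, hj] at this
        rcases off1 j this with rfl | rfl
        · rw [s0]; exact h0
        · exact absurd (β.injective (hj.trans h0.symm)) (by decide)
      · exact hj
  · rintro (h | h)
    · have : ∀ i, β.symm i = i := fun i => by
        rw [Equiv.symm_apply_eq]; exact (h i).symm
      simp [this]
    · have : ∀ i, β.symm i = swapFun 6 i := fun i => by
        rw [Equiv.symm_apply_eq, h, sw_sw]
      simp only [this]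
      ext c
      constructor
      · rintro ⟨_, ⟨a, rfl⟩, rfl⟩
        exact ⟨sw a, funext fun i => (enc_sw a i).symm⟩
      · rintro ⟨a, rfl⟩
        refine ⟨enc (sw a), ⟨sw a, rfl⟩, funext fun i => ?_⟩
        show enc (sw a) (swapFun 6 i) = enc a i
        rw [← enc_sw, sw_sw]

end Pool.Agent.Results.MP_e1d516_co.Counter
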